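import Mathlib

/-!
# The cardinal `𝔟_b^eq`
-/

set_option autoImplicit false

open Cardinal Filter Topology

namespace Pool.Agent.K4H92.EQ

/-- The product `∏ b`. -/
abbrev P (b : ℕ → ℕ) : Type := (n : ℕ) → Fin (b n)

/-- `f ⊏• (J, h)` for the interval partition `J_n = [j n, j (n + 1))`: for all but finitely many `n`
there is `k ∈ J_n` with `f k = h k`. -/
def Sq {b : ℕ → ℕ} (f : P b) (j : ℕ → ℕ) (h : P b) : Prop :=
  ∀ᶠ n in atTop, ∃ k, j n ≤ k ∧ k < j (n + 1) ∧ f k = h k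

/-- `𝔟_b^eq`: the least size of a set `F ⊆ ∏ b` such that there are no interval partition `J` and
`h ∈ ∏ b` with `f ⊏• (J, h)` for all `f ∈ F`. -/
noncomputable def bEq (b : ℕ → ℕ) : Cardinal.{0} :=
  sInf {κ | ∃ F : Set (P b), (¬ ∃ (j : ℕ → ℕ) (h : P b), StrictMono j ∧ j 0 = 0 ∧
    ∀ f ∈ F, Sq f j h) ∧ #F = κ}

/-- The bounding number `𝔟`. -/
noncomputable def bounding : Cardinal.{0} :=
  sInf {κ | ∃ F : Set (ℕ → ℕ), (¬ ∃ g : ℕ → ℕ, ∀ f ∈ F, ∀ᶠ n in atTop, f n ≤ g n) ∧ #F = κ}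

/-- `cov(ℳ)`: the least number of meagre sets which cover `2^ω`. -/
noncomputable def covM : Cardinal.{0} :=
  sInf {κ | ∃ 𝒬 : Set (Set (ℕ → Bool)), (∀ Q ∈ 𝒬, IsMeagre Q) ∧ ⋃₀ 𝒬 = Set.univ ∧ #𝒬 = κ}

/-- The least size of a set `F ⊆ ∏ b` such that every `h ∈ ∏ b` is eventually different from some
`f ∈ F`. -/
noncomputable def eNum (b : ℕ → ℕ) : Cardinal.{0} :=
  sInf {κ | ∃ F : Set (P b), (∀ h : P b, ∃ f ∈ F, ∀ᶠ k in atTop, f k ≠ h k) ∧ #F = κ}

/-- Decoding a finite set of bits. -/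
noncomputable def dec {m : ℕ} (hm : 0 < m) (v : Fin m → Bool) : Fin m := by
  classical
  exact if h : ∃ i, v i = true then h.choose else ⟨0, hm⟩

theorem dec_eq {m : ℕ} (hm : 0 < m) (i : Fin m) (v : Fin m → Bool)
    (hv : ∀ i', v i' = true ↔ i' = i) : dec hm v = i := by
  classical
  have h : ∃ i, v i = true := ⟨i, (hv i).2 rfl⟩
  unfold dec
  rw [dif_pos h]
  exact (hv _).1 h.choose_spec

/-- The decoding map `2^ω → ∏ b`. -/
noncomputable def phi {b : ℕ → ℕ} (hb : ∀ n, 0 < b n) (x : ℕ → Bool) : P b :=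
  fun n => dec (hb n) (fun i => x (Nat.pair n i))

theorem meagre_phi {b : ℕ → ℕ} (hb : ∀ n, 0 < b n) (f : P b) :
    IsMeagre {x : ℕ → Bool | ∀ᶠ k in atTop, f k ≠ phi hb x k} := by
  classical
  have h : {x : ℕ → Bool | ∀ᶠ k in atTop, f k ≠ phi hb x k} =
      ⋃ N : ℕ, {x : ℕ → Bool | ∀ k, N ≤ k → f k ≠ phi hb x k} := by
    ext s
    simp [eventually_atTop]
  rw [h]
  apply isMeagre_iUnion
  intro N
  apply IsNowhereDense.isMeagre
  have hcl : IsClosed {x : ℕ → Bool | ∀ k, N ≤ k → f k ≠ phi hb x k} := by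
    have h2 : {x : ℕ → Bool | ∀ k, N ≤ k → f k ≠ phi hb x k} =
        ⋂ k : ℕ, ⋂ _ : N ≤ k, (fun x : ℕ → Bool => (fun i : Fin (b k) => x (Nat.pair k i))) ⁻¹'
          {v | f k ≠ dec (hb k) v} := by
      ext s
      simp [phi]
    rw [h2]
    refine isClosed_iInter fun k => isClosed_iInter fun _ => ?_
    have h3 : Continuous (fun x : ℕ → Bool => (fun i : Fin (b k) => x (Nat.pair k i))) :=
      continuous_pi fun i => continuous_apply _
    exact IsClosed.preimage h3 (isClosed_discrete _)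
  rw [IsNowhereDense, hcl.closure_eq]
  by_contra hne
  obtain ⟨x, hx⟩ := Set.nonempty_iff_ne_empty.2 hne
  obtain ⟨I, u, hu, hsub⟩ := isOpen_pi_iff.1 isOpen_interior x hx
  obtain ⟨n, hn⟩ := (I.image (fun m => m.unpair.1) ∪ Finset.range N).exists_notMem
  have hn1 : ∀ m ∈ I, m.unpair.1 ≠ n := fun m hm h =>
    hn (Finset.mem_union_left _ (Finset.mem_image.2 ⟨m, hm, h⟩))
  have hn2 : N ≤ n := by
    by_contra h
    exact hn (Finset.mem_union_right _ (Finset.mem_range.2 (not_le.1 h)))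
  let x' : ℕ → Bool := fun m => if m.unpair.1 = n then decide (m.unpair.2 = (f n : ℕ)) else x m
  have h1 : x' ∈ {x : ℕ → Bool | ∀ k, N ≤ k → f k ≠ phi hb x k} := by
    apply interior_subset
    apply hsub
    intro i hi
    have h4 : x' i = x i := if_neg (hn1 i hi)
    rw [h4]
    exact (hu i hi).2
  apply h1 n hn2
  symm
  apply dec_eq
  intro i'
  simp only [x', Nat.unpair_pair, if_true, decide_eq_true_eq]
  exact Fin.ext_iff.symm

theorem exists_other {b : ℕ → ℕ} (hb : ∀ n, 2 ≤ b n) (h : P b) : ∃ f : P b, ∀ k, f k ≠ h k := by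
  have h1 : ∀ k, ∃ i : Fin (b k), i ≠ h k := by
    intro k
    have : Nontrivial (Fin (b k)) := Fin.nontrivial_iff_two_le.2 (hb k)
    exact exists_ne (h k)
  choose f hf using h1
  exact ⟨f, hf⟩

/-- `cov(ℳ)` is at most the least size of a family of eventually different functions. -/
theorem covM_le_eNum {b : ℕ → ℕ} (hb : ∀ n, 2 ≤ b n) : covM ≤ eNum b := by
  classical
  have hb0 : ∀ n, 0 < b n := fun n => lt_of_lt_of_le two_pos (hb n)
  apply le_csInf
  · refine ⟨_, Set.univ, fun h => ?_, rfl⟩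
    obtain ⟨f, hf⟩ := exists_other hb h
    exact ⟨f, Set.mem_univ _, Eventually.of_forall hf⟩
  · rintro _ ⟨F, hF, rfl⟩
    refine le_trans (csInf_le' ⟨(fun f : P b => {x : ℕ → Bool | ∀ᶠ k in atTop, f k ≠ phi hb0 x k}) '' F,
      ?_, ?_, rfl⟩) mk_image_le
    · rintro _ ⟨f, -, rfl⟩
      exact meagre_phi hb0 f
    · apply Set.eq_univ_of_forall
      intro x
      obtain ⟨f, hf, hfx⟩ := hF (phi hb0 x)
      exact ⟨_, ⟨f, hf, rfl⟩, hfx⟩

theorem min_le_bEq {b : ℕ → ℕ} (hb : ∀ n, 2 ≤ b n) : min bounding (eNum b) ≤ bEq b := by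
  classical
  have hb0 : ∀ n, 0 < b n := fun n => lt_of_lt_of_le two_pos (hb n)
  apply le_csInf
  · refine ⟨_, Set.univ, ?_, rfl⟩
    rintro ⟨j, h, hj, hj0, hF⟩
    obtain ⟨f, hf⟩ := exists_other hb h
    obtain ⟨n, k, -, -, hk⟩ := (hF f (Set.mem_univ _)).exists
    exact hf k hk
  · rintro _ ⟨F, hF, rfl⟩
    by_contra hlt
    rw [not_le, lt_min_iff] at hlt
    obtain ⟨h1, h2⟩ := hlt
    -- a function infinitely often equal to all members of `F`
    have h3 : ∃ h : P b, ∀ f ∈ F, ∀ N, ∃ k, N ≤ k ∧ f k = h k := by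
      by_contra hcon
      push Not at hcon
      have h4 : eNum b ≤ #F := by
        refine csInf_le' ⟨F, fun h => ?_, rfl⟩
        obtain ⟨f, hf, N, hN⟩ := hcon h
        exact ⟨f, hf, eventually_atTop.2 ⟨N, fun k hk => hN k hk⟩⟩
      exact absurd h4 (not_le.2 h2)
    obtain ⟨h, hh⟩ := h3
    choose! e he1 he2 using hh
    -- a bound
    have h4 : ∃ g : ℕ → ℕ, ∀ f ∈ F, ∀ᶠ n in atTop, e f n ≤ g n := by
      by_contra hcon
      have h5 : bounding ≤ #(e '' F) := by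
        refine csInf_le' ⟨e '' F, ?_, rfl⟩
        rintro ⟨g, hg⟩
        exact hcon ⟨g, fun f hf => hg _ ⟨f, hf, rfl⟩⟩
      exact absurd (h5.trans mk_image_le) (not_le.2 h1)
    obtain ⟨g, hg⟩ := h4
    let j : ℕ → ℕ := fun n => Nat.rec 0 (fun _ m => max (g m) m + 1) n
    have hj : ∀ n, j (n + 1) = max (g (j n)) (j n) + 1 := fun n => rfl
    have hjm : StrictMono j := strictMono_nat_of_lt_succ fun n => by
      rw [hj]; exact Nat.lt_succ_of_le (le_max_right _ _)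
    apply hF
    refine ⟨j, h, hjm, rfl, fun f hf => ?_⟩
    have h5 := (hjm.tendsto_atTop).eventually (hg f hf)
    refine h5.mono fun n hn => ⟨e f (j n), he1 f hf _, ?_, he2 f hf _⟩
    rw [hj]
    exact Nat.lt_succ_of_le (hn.trans (le_max_left _ _))

theorem bEq_le_eNum {b : ℕ → ℕ} (hb : ∀ n, 2 ≤ b n) : bEq b ≤ eNum b := by
  classical
  have hb0 : ∀ n, 0 < b n := fun n => lt_of_lt_of_le two_pos (hb n)
  apply le_csInf
  · refine ⟨_, Set.univ, fun h => ?_, rfl⟩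
    obtain ⟨f, hf⟩ := exists_other hb h
    exact ⟨f, Set.mem_univ _, Eventually.of_forall hf⟩
  · rintro _ ⟨F, hF, rfl⟩
    refine csInf_le' ⟨F, ?_, rfl⟩
    rintro ⟨j, h, hj, hj0, hh⟩
    obtain ⟨f, hf, hfd⟩ := hF h
    obtain ⟨N, hN⟩ := eventually_atTop.1 hfd
    obtain ⟨M, hM⟩ := eventually_atTop.1 (hh f hf)
    obtain ⟨k, hk1, -, hk3⟩ := hM (max N M) (le_max_right _ _)
    exact hN k (((le_max_left _ _).trans (hj.le_apply)).trans hk1) hk3

end Pool.Agent.K4H92.EQ
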